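import Pool.Agent.Helper75.OE.GoalsA

/-!
# Project OE (MP_fc0446_an), packet OE-BLOC: ball locality of the tripod move
-/

set_option autoImplicit false

namespace Pool.Agent.Helper48.OE

open Pool.Agent.Helper73.OE Pool.Agent.Helper73.OE.Sys

variable {H S L : Type} [Group H] (X : Sys H S L)

theorem dist_le_nb' (v z : H) (s : S) : X.dist v z ≤ X.dist (X.nb v s) z + 1 := by
  have h := X.dist_le_nb z v s
  rwa [X.dist_comm z v, X.dist_comm z (X.nb v s)] at h

theorem long_loc (O O' : Edges H S) (f g : Cfg H S L) (r : ℕ) :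
    ∀ (M : ℕ) (v : H) (p : S) (y : L), (∀ z, X.dist v z < M → g z = f z) →
      (∀ z t, X.dist v z < M → (O' z t ↔ O z t)) → r ≤ M →
      (X.Long O' g r v p y ↔ X.Long O f r v p y) := by
  induction r with
  | zero => intro M v p y _ _ _; simp only [Sys.Long]
  | succ r ih =>
    intro M v p y hf hO hr
    obtain ⟨M, rfl⟩ : ∃ M', M = M' + 1 := ⟨M - 1, by omega⟩
    have hv : X.dist v v < M + 1 := by rw [X.dist_self]; omega
    have h1 := ih M (X.nb v ((f v).symm y)) (X.bar ((f v).symm y)) (X.tau (f v p))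
      (fun z hz => hf z (lt_of_le_of_lt (dist_le_nb' X v z ((f v).symm y)) (by omega)))
      (fun z t hz => hO z t (lt_of_le_of_lt (dist_le_nb' X v z ((f v).symm y)) (by omega))) (by omega)
    simp only [Sys.Long]
    rw [hf v hv, hO v _ hv, h1]

theorem flipP_loc (O O' : Edges H S) (f g : Cfg H S L) (M : ℕ) :
    ∀ (v : H) (p : S) (y : L), (∀ z, X.dist v z < M → g z = f z) →
      (∀ z t, X.dist v z < M → (O' z t ↔ O z t)) → ¬ X.Long O f M v p y →
      ∀ (z : H) (n : ℕ), X.flipP O' g z n v p y = X.flipP O f z n v p y ∧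
        (M ≤ X.dist v z → X.flipP O f z n v p y = 1) := by
  induction M with
  | zero => intro v p y _ _ h; exact absurd trivial h
  | succ M ih =>
    intro v p y hf hO hL z n
    have hv : X.dist v v < M + 1 := by rw [X.dist_self]; omega
    have hzv : M + 1 ≤ X.dist v z → z ≠ v := by
      rintro h rfl
      rw [X.dist_self] at h
      omega
    cases n with
    | zero =>
      simp only [Sys.flipP]
      rw [hf v hv]
      exact ⟨rfl, fun h => if_neg (hzv h)⟩
    | succ n =>
      simp only [Sys.flipP]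
      rw [hf v hv]
      by_cases hz : z = v
      · rw [if_pos hz, if_pos hz]
        exact ⟨rfl, fun h => absurd hz (hzv h)⟩
      · rw [if_neg hz, if_neg hz]
        by_cases ho : O v ((f v).symm y)
        · rw [if_pos ho, if_pos ((hO v _ hv).2 ho)]
          have hL' : ¬ X.Long O f M (X.nb v ((f v).symm y)) (X.bar ((f v).symm y))
              (X.tau (f v p)) := fun h => hL ⟨ho, h⟩
          have h1 := ih (X.nb v ((f v).symm y)) (X.bar ((f v).symm y)) (X.tau (f v p))
            (fun z hz => hf z (lt_of_le_of_lt (dist_le_nb' X v z ((f v).symm y)) (by omega)))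
            (fun z t hz => hO z t (lt_of_le_of_lt (dist_le_nb' X v z ((f v).symm y)) (by omega))) hL' z n
          refine ⟨h1.1, fun h => h1.2 ?_⟩
          have := dist_le_nb' X v z ((f v).symm y)
          omega
        · rw [if_neg ho, if_neg (fun h => ho ((hO v _ hv).1 h))]
          exact ⟨rfl, fun _ => rfl⟩

theorem armOk_loc (O O' : Edges H S) (f g : Cfg H S L) (M : ℕ) (u : H) (t : S) (y : L)
    (hf : ∀ z, X.dist u z ≤ M → g z = f z) (hO : ∀ z t, X.dist u z ≤ M → (O' z t ↔ O z t)) :
    X.ArmOk O' M g u t y ↔ X.ArmOk O M f u t y := by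
  have hu : X.dist u u ≤ M := by rw [X.dist_self]; omega
  have h1 := long_loc X O O' f g M M (X.nb u t) (X.bar t) (X.tau y)
    (fun z hz => hf z ((dist_le_nb' X u z t).trans (by omega)))
    (fun z s hz => hO z s ((dist_le_nb' X u z t).trans (by omega))) le_rfl
  unfold Sys.ArmOk
  rw [h1, hO u t hu]

theorem armP_loc (O O' : Edges H S) (f g : Cfg H S L) (M : ℕ) (u : H) (t : S) (y : L)
    (hf : ∀ z, X.dist u z ≤ M → g z = f z) (hO : ∀ z t, X.dist u z ≤ M → (O' z t ↔ O z t))
    (h : X.ArmOk O M f u t y) (z : H) :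
    X.armP O' g z u t y = X.armP O f z u t y ∧ (M < X.dist u z → X.armP O f z u t y = 1) := by
  have hu : X.dist u u ≤ M := by rw [X.dist_self]; omega
  unfold Sys.armP
  by_cases ho : O u t
  · rw [if_pos ho, if_pos ((hO u t hu).2 ho)]
    have h1 := flipP_loc X O O' f g M (X.nb u t) (X.bar t) (X.tau y)
      (fun z hz => hf z ((dist_le_nb' X u z t).trans (by omega)))
      (fun z s hz => hO z s ((dist_le_nb' X u z t).trans (by omega))) (h ho) z
      (X.dist (X.nb u t) z)
    refine ⟨h1.1, fun h2 => h1.2 ?_⟩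
    have := dist_le_nb' X u z t
    omega
  · rw [if_neg ho, if_neg (fun h => ho ((hO u t hu).1 h))]
    exact ⟨rfl, fun _ => rfl⟩

theorem triP_loc (O O' : Edges H S) (f g : Cfg H S L) (M : ℕ) (k : L) (m : ℕ) :
    ∀ (v : H) (p : S) (y : L), (∀ z, X.dist v z ≤ m + M → g z = f z) →
      (∀ z t, X.dist v z ≤ m + M → (O' z t ↔ O z t)) →
      (X.Av O' M g m v p y k ↔ X.Av O M f m v p y k) ∧
      (X.Av O M f m v p y k → ∀ z, X.triP O' g z m v p y k = X.triP O f z m v p y k ∧
        (m + M < X.dist v z → X.triP O f z m v p y k = 1)) := by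
  induction m with
  | zero =>
    intro v p y hf hO
    have hv : X.dist v v ≤ 0 + M := by rw [X.dist_self]; omega
    have hf' : ∀ z, X.dist v z ≤ M → g z = f z := fun z hz => hf z (by omega)
    have hO' : ∀ z t, X.dist v z ≤ M → (O' z t ↔ O z t) := fun z t hz => hO z t (by omega)
    refine ⟨?_, ?_⟩
    · simp only [Sys.Av]
      rw [hf v hv, armOk_loc X O O' f g M v _ _ hf' hO', armOk_loc X O O' f g M v _ _ hf' hO']
    · intro hA z
      have hA1 := hA.2.2.1
      have hA2 := hA.2.2.2
      have h1 := armP_loc X O O' f g M v _ _ hf' hO' hA1 z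
      have h2 := armP_loc X O O' f g M v _ _ hf' hO' hA2 z
      simp only [Sys.triP]
      rw [hf v hv]
      by_cases hz : z = v
      · rw [if_pos hz, if_pos hz]
        refine ⟨rfl, fun h => ?_⟩
        rw [hz, X.dist_self] at h
        omega
      · rw [if_neg hz, if_neg hz, h1.1, h2.1]
        refine ⟨rfl, fun h => ?_⟩
        rw [h1.2 (by omega), h2.2 (by omega)]
        rfl
  | succ m ih =>
    intro v p y hf hO
    have hv : X.dist v v ≤ m + 1 + M := by rw [X.dist_self]; omega
    have h1 := ih (X.nb v ((f v).symm y)) (X.bar ((f v).symm y)) (X.tau (f v p))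
      (fun z hz => hf z ((dist_le_nb' X v z ((f v).symm y)).trans (by omega)))
      (fun z t hz => hO z t ((dist_le_nb' X v z ((f v).symm y)).trans (by omega)))
    refine ⟨?_, ?_⟩
    · simp only [Sys.Av]
      rw [hf v hv, hO v _ hv, h1.1]
    · intro hA z
      have h2 := h1.2 hA.2 z
      simp only [Sys.triP]
      rw [hf v hv]
      by_cases hz : z = v
      · rw [if_pos hz, if_pos hz]
        refine ⟨rfl, fun h => ?_⟩
        rw [hz, X.dist_self] at h
        omega
      · rw [if_neg hz, if_neg hz]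
        refine ⟨h2.1, fun h => h2.2 ?_⟩
        have := dist_le_nb' X v z ((f v).symm y)
        omega

theorem bloc : Pool.Agent.Helper75.OE.A_BLOC := by
  intro H S L _ X O O' M m v p y k f g hf hO
  obtain ⟨h1, h2⟩ := triP_loc X O O' f g M k m v p y hf hO
  refine ⟨h1, fun hA => ⟨fun z hz => ?_, fun z hz => ?_⟩⟩
  · unfold Sys.TR
    rw [(h2 hA z).1, hf z hz]
  · unfold Sys.TR
    rw [(h2 hA z).2 hz]
    rfl

end Pool.Agent.Helper48.OE
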