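import Pool.Agent.Helper75.OE.GoalsB2

/-!
# Project OE (MP_fc0446_an), packet STRUCT: the component of `o` is a compatible tree
-/

set_option autoImplicit false

namespace Pool.Agent.Helper48.OE

open Pool.Agent.Helper73.OE Pool.Agent.Helper73.OE.Sys Pool.Agent.Helper75.OE Finset

/-- One of the two histories, and what is known about it. -/
structure Hi {H S L : Type} [Group H] [Fintype L] (X : Sys H S L) (P : Par) (u : H × S → ℕ)
    (O : Edges H S) (q : Cfg H S L) (U : Set H) (C base : Finset H) (l : List (H × S))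
    (Oi : Edges H S) : Prop where
  sym : X.Sym Oi
  ma : X.MA Oi Set.univ q
  fr : Fr X Oi l
  sub : ∀ z r, Oi z r → O z r
  inU : UU X P u l Oi q ⊆ U
  ball : ∀ e ∈ l, e.1 ∈ C → ∀ z, X.dist e.1 z ≤ rad P ∨ X.dist (X.nb e.1 e.2) z ≤ rad P →
    z ∈ base
  last : ∀ e' O' f', Rec X P u l Oi q e' O' f' → e'.1 ∈ C →
    ∀ z p' y', At X O' f' (X.nb e'.1 e'.2) (X.bar e'.2) (X.tau (f' e'.1 e'.2)) z p' y' →
      ¬ O' z ((f' z).symm y') → z ∈ base

variable {H S L : Type} [Group H] [Fintype L] {X : Sys H S L} {P : Par} {u : H × S → ℕ}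
  {O : Edges H S} {q : Cfg H S L} {o : H} {U : Set H} {C base : Finset H} {l : List (H × S)}
  {Oi : Edges H S}

omit [Fintype L] in
theorem fst_mem_Ex (P : Par) (O' : Edges H S) (f' : Cfg H S L) (e' : H × S) :
    e'.1 ∈ Ex X P O' f' e' := by
  left
  rw [X.dist_self]
  exact Nat.zero_le _

theorem ex_sub (hD : B_DICH) (hC : (C : Set H) = Cmp X U o) (hh : Hi X P u O q U C base l Oi)
    {e' : H × S} {O' : Edges H S} {f' : Cfg H S L} (hr : Rec X P u l Oi q e' O' f') :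
    Ex X P O' f' e' ⊆ C ∨ Disjoint (Ex X P O' f' e') (C : Set H) := by
  rw [hC]
  apply hD
  intro z hz
  exact hh.inU ⟨e', O', f', hr, hz⟩

theorem ex_sub' (hD : B_DICH) (hC : (C : Set H) = Cmp X U o) (hh : Hi X P u O q U C base l Oi)
    {e' : H × S} {O' : Edges H S} {f' : Cfg H S L} (hr : Rec X P u l Oi q e' O' f')
    {z : H} (hz : z ∈ Ex X P O' f' e') (hzC : z ∈ C) :
    Ex X P O' f' e' ⊆ C ∧ e'.1 ∈ C := by
  rcases ex_sub hD hC hh hr with h | h
  · exact ⟨h, h (fst_mem_Ex P O' f' e')⟩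
  · exact absurd hzC (Set.disjoint_left.1 h hz)

/-- Part (2): a vertex of `C` outside `base` is an inner vertex of a run, with two neighbours in `C`. -/
theorem inner (hD : B_DICH) (hN : B_NBR) (hR : B_RINV) (hA : B_AT)
    (hC : (C : Set H) = Cmp X U o) (hh : Hi X P u O q U C base l Oi)
    {z : H} (hzC : z ∈ C) (hzb : z ∉ base) (hzU : z ∈ UU X P u l Oi q) :
    (∃ e' O' f', Rec X P u l Oi q e' O' f' ∧
      X.OnRun O' f' (X.nb e'.1 e'.2) (X.bar e'.2) (X.tau (f' e'.1 e'.2)) z) ∧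
    ∃ a b : S, a ≠ b ∧ X.nb z a ∈ C ∧ X.nb z b ∈ C := by
  obtain ⟨e', O', f', hr, hz⟩ := hzU
  obtain ⟨hsub, hfst⟩ := ex_sub' hD hC hh hr hz hzC
  obtain ⟨hi1, -, -⟩ := hR H S L X P u l Oi q hh.sym hh.ma hh.fr
  obtain ⟨hel, hsym, hma, hcl, -, -⟩ := hi1 e' O' f' hr
  have hon : X.OnRun O' f' (X.nb e'.1 e'.2) (X.bar e'.2) (X.tau (f' e'.1 e'.2)) z := by
    rcases hz with hz | hz | hz
    · exact absurd (hh.ball e' hel hfst z (Or.inl hz)) hzb
    · exact absurd (hh.ball e' hel hfst z (Or.inr hz)) hzb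
    · exact hz
  refine ⟨⟨e', O', f', hr, hon⟩, ?_⟩
  obtain ⟨p', y', hat⟩ := ((hA H S L X O' f' _ _ _).1 z).1 hon
  have hop : O' z ((f' z).symm y') := by
    by_contra hno
    exact hzb (hh.last e' O' f' hr hfst z p' y' hat hno)
  have hne : z ≠ X.nb e'.1 e'.2 := by
    rintro rfl
    apply hzb
    refine hh.ball e' hel hfst _ (Or.inr ?_)
    rw [X.dist_self]
    exact Nat.zero_le _
  obtain ⟨h1, h2, h3⟩ := hN H S L X O' f' e' z p' y' hma hsym hcl hat hne hop
  exact ⟨p', (f' z).symm y', h1.symm, hsub (Or.inr (Or.inr h2)), hsub (Or.inr (Or.inr h3))⟩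

theorem thr (hD : B_DICH) (hT : B_THRU) (hR : B_RINV) (hA : B_AT)
    (hC : (C : Set H) = Cmp X U o) (hh : Hi X P u O q U C base l Oi)
    {z : H} (hzC : z ∈ C) (hzb : z ∉ base) {a b : S}
    (hab : ∀ c', X.nb z c' ∈ C → c' = a ∨ c' = b)
    {e' : H × S} {O' : Edges H S} {f' : Cfg H S L} (hr : Rec X P u l Oi q e' O' f') :
    Thr X P O' f' e' z a b := by
  obtain ⟨hi1, -, -⟩ := hR H S L X P u l Oi q hh.sym hh.ma hh.fr
  obtain ⟨hel, hsym, hma, hcl, -, -⟩ := hi1 e' O' f' hr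
  rcases ex_sub hD hC hh hr with h | h
  · have hfst : e'.1 ∈ C := h (fst_mem_Ex P O' f' e')
    have h1 : rad P < X.dist e'.1 z := by
      by_contra hn
      exact hzb (hh.ball e' hel hfst z (Or.inl (not_lt.1 hn)))
    have h2 : rad P < X.dist (X.nb e'.1 e'.2) z := by
      by_contra hn
      exact hzb (hh.ball e' hel hfst z (Or.inr (not_lt.1 hn)))
    refine hT H S L X P O' f' e' (C : Set H) z a b hma hsym hcl h1 h2 h ?_ ?_
    · intro p' y' hat
      by_contra hno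
      exact hzb (hh.last e' O' f' hr hfst z p' y' hat hno)
    · intro c' hc'
      exact hab c' (by exact_mod_cast hc')
  · have hz : z ∉ Ex X P O' f' e' := fun hz ↦ Set.disjoint_left.1 h hz hzC
    refine ⟨?_, ?_, ?_⟩
    · by_contra hn
      exact hz (Or.inl (not_lt.1 hn))
    · by_contra hn
      exact hz (Or.inr (Or.inl (not_lt.1 hn)))
    · intro p' y' hat
      exact absurd (Or.inr (Or.inr (((hA H S L X O' f' _ _ _).1 z).2 ⟨p', y', hat⟩))) hz

theorem lab (hD : B_DICH) (hN : B_NBR) (hT : B_THRU) (hR : B_RINV) (hA : B_AT) (hL : B_LAB)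
    (hC : (C : Set H) = Cmp X U o) (hh : Hi X P u O q U C base l Oi)
    {z : H} (hzC : z ∈ C) (hzb : z ∉ base) (hzU : z ∈ UU X P u l Oi q) {r c r' : S}
    (hcr : c ≠ r) (hr' : r' ≠ X.bar r) (hrC : X.nb z r ∈ C) (hrb : X.nb z r ∉ base)
    (h1 : ∀ c', X.nb z c' ∈ C → c' = r ∨ c' = c)
    (h2 : ∀ c', X.nb (X.nb z r) c' ∈ C → c' = r' ∨ c' = X.bar r) :
    O z c ∧ q z c = X.tau (q (X.nb z r) r') := by
  obtain ⟨hex, -⟩ := inner hD hN hR hA hC hh hzC hzb hzU
  have h := hL H S L X P u l Oi q z r c r' hh.sym hh.ma hh.fr hcr hr'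
    (fun e' O' f' hr ↦ ⟨thr hD hT hR hA hC hh hzC hzb h1 hr,
      thr hD hT hR hA hC hh hrC hrb h2 hr⟩) hex
  exact ⟨hh.sub _ _ h.1, h.2⟩

open Classical in
theorem struct (h1 : B_CVX) (h2 : B_DICH) (h3 : B_BASE) (h4 : B_NBR) (h5 : B_SIZE) (h6 : B_THRU)
    (h7 : B_LAB) (h8 : B_RINV) (h9 : B_AT) : B_STRUCT := by
  intro H S L _ _ _ X P u O Sb q Λ l1 l2 O1 O2 o U hT hU ho
  obtain ⟨C, base, hC, hbC, hob, hk, hcard, hball, hlast⟩ :=
    h3 H S L X P u O Sb q Λ l1 l2 O1 O2 o U hT hU ho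
  obtain ⟨-, -, -, cv4, cv5, -⟩ := h1 H S L X
  have hPC : X.PC o (C : Set H) := by
    rw [hC]
    exact (cv4 U o ho).2
  have hCU : (C : Set H) ⊆ U := by
    rw [hC]
    exact cv5 U o
  have hH1 : Hi X P u O q U C base l1 O1 :=
    { sym := hT.sym1
      ma := fun v s hv hn ho ↦ hT.ma v s hv hn (hT.sub1 v s ho).1
      fr := ⟨fun e he ho ↦ (hT.lS e (hT.lsub e he)).2 (hT.sub1 _ _ ho).1, hT.fr1⟩
      sub := fun z r ho ↦ (hT.sub1 z r ho).1
      inU := by rw [hU]; exact Set.subset_union_left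
      ball := fun e he ↦ hball e (hT.lsub e he)
      last := fun e' O' f' hr ↦ hlast e' O' f' (Or.inl hr) }
  have hH2 : Hi X P u O q U C base l2 O2 :=
    { sym := hT.sym2
      ma := fun v s hv hn ho ↦ hT.ma v s hv hn (hT.sub2 v s ho).1
      fr := ⟨fun e he ho ↦ (hT.lS e he).2 (hT.sub2 _ _ ho).1, hT.fr2⟩
      sub := fun z r ho ↦ (hT.sub2 z r ho).1
      inU := by rw [hU]; exact Set.subset_union_right
      ball := fun e he ↦ hball e he
      last := fun e' O' f' hr ↦ hlast e' O' f' (Or.inr hr) }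
  have htwo : ∀ z ∈ C, z ∉ base → ∃ a b : S, a ≠ b ∧ X.nb z a ∈ C ∧ X.nb z b ∈ C := by
    intro z hz hzb
    have hzU : z ∈ U := hCU hz
    rw [hU] at hzU
    rcases hzU with hzU | hzU
    · exact (inner h2 h4 h8 h9 hC hH1 hz hzb hzU).2
    · exact (inner h2 h4 h8 h9 hC hH2 hz hzb hzU).2
  have hchild : ∀ z ∈ C, z ∉ base → ∃ c, X.nb z c ∈ C ∧ X.dist o (X.nb z c) = X.dist o z + 1 := by
    intro z hz hzb
    obtain ⟨a, b, hab, ha, hb⟩ := htwo z hz hzb
    rcases X.dist_nb o z a with h | h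
    · exact ⟨a, ha, h⟩
    · rcases X.dist_nb o z b with h' | h'
      · exact ⟨b, hb, h'⟩
      · exact absurd (X.parent_unique h h') hab
  obtain ⟨Sp, hbSp, hSpC, hSpcard, hrun⟩ := h5 H S L X o C base hPC hbC hob hchild
  refine ⟨C, Sp, hC, ?_⟩
  set k := (l2.toFinset.filter fun e => e.1 ∈ C).card with hkdef
  refine
    { pc := hPC
      sub := hSpC
      root := hbSp hob
      one := hk
      card := ?_
      edges := ?_
      run := ?_ }
  · refine hSpcard.trans ?_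
    unfold CR
    set b := (X.ball 1 (rad P)).ncard
    calc 2 * (Fintype.card S + 1) * base.card
        ≤ 2 * (Fintype.card S + 1) * (1 + k * (2 * b + 2)) := Nat.mul_le_mul_left _ hcard
      _ ≤ 2 * (Fintype.card S + 1) * (k + k * (2 * b + 2)) :=
          Nat.mul_le_mul_left _ (Nat.add_le_add_right hk _)
      _ = 2 * (Fintype.card S + 1) * (2 * b + 3) * k := by ring
  · set A := l2.toFinset.filter fun e => e.1 ∈ C with hA
    have hAmem : ∀ e ∈ A, e ∈ l2 ∧ e.1 ∈ C := by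
      intro e he
      rw [hA, mem_filter, List.mem_toFinset] at he
      exact he
    have hends : ∀ e ∈ A, e.1 ∈ base ∧ X.nb e.1 e.2 ∈ base := by
      intro e he
      obtain ⟨hel, heC⟩ := hAmem e he
      constructor
      · refine hball e hel heC _ (Or.inl ?_)
        rw [X.dist_self]
        exact Nat.zero_le _
      · refine hball e hel heC _ (Or.inr ?_)
        rw [X.dist_self]
        exact Nat.zero_le _
    let φ : H × S → H × S := fun e ↦
      if X.dist o (X.nb e.1 e.2) = X.dist o e.1 + 1 then e else X.rev e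
    have hφ : ∀ e, φ e = e ∨ φ e = X.rev e := by
      intro e
      by_cases h : X.dist o (X.nb e.1 e.2) = X.dist o e.1 + 1
      · left; exact if_pos h
      · right; exact if_neg h
    have hpw : ∀ e ∈ l2, ∀ e' ∈ l2, e ≠ e' → e ≠ e' ∧ e' ≠ X.rev e := by
      have hs : Std.Symm (fun e e' : H × S => e ≠ e' ∧ e' ≠ X.rev e) := by
        refine ⟨fun e e' hee ↦ ⟨hee.1.symm, fun h ↦ hee.2 ?_⟩⟩
        rw [h, X.rev_rev]
      intro e he e' he' hne
      exact hT.fr2.forall he he' hne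
    refine ⟨A.image φ, ?_, ?_⟩
    · rw [card_image_of_injOn]
      intro e he e' he' hee
      by_contra hne
      have hel := (hAmem e he).1
      have hel' := (hAmem e' he').1
      have h := (hpw e hel e' hel' hne).2
      rcases hφ e with h3 | h3 <;> rcases hφ e' with h4 | h4 <;> rw [h3, h4] at hee
      · exact hne hee
      · apply h
        rw [hee, X.rev_rev]
      · exact h hee.symm
      · apply hne
        rw [← X.rev_rev e, hee, X.rev_rev]
    · intro e he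
      rw [mem_image] at he
      obtain ⟨e0, he0, rfl⟩ := he
      obtain ⟨hb1, hb2⟩ := hends e0 he0
      have hS := (hT.lS e0 (hAmem e0 he0).1).1
      by_cases h : X.dist o (X.nb e0.1 e0.2) = X.dist o e0.1 + 1
      · have e1 : φ e0 = e0 := if_pos h
        rw [e1]
        exact ⟨hbSp hb1, hbC hb2, h, hS⟩
      · have e1 : φ e0 = X.rev e0 := if_neg h
        rw [e1]
        have e2 : X.nb (X.rev e0).1 (X.rev e0).2 = e0.1 := X.nb_bar _ _
        rw [e2]
        refine ⟨hbSp hb2, hbC hb1, ?_, (hT.symS _ _).1 hS⟩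
        rcases X.dist_nb o e0.1 e0.2 with h' | h'
        · exact absurd h' h
        · exact h'
  · intro z hz hzSp
    obtain ⟨r, c, r', hd1, hd2, hcr, hr', hcC, hrC, hrb, hc1, hc2⟩ := hrun z hz hzSp
    have hzb : z ∉ base := fun h ↦ hzSp (hbSp h)
    refine ⟨r, c, r', hd1, hd2, hcr, hcC, hc1, ?_⟩
    have hzU : z ∈ U := hCU hz
    rw [hU] at hzU
    rcases hzU with hzU | hzU
    · exact lab h2 h4 h6 h8 h9 h7 hC hH1 hz hzb hzU hcr hr' hrC hrb hc1 hc2
    · exact lab h2 h4 h6 h8 h9 h7 hC hH2 hz hzb hzU hcr hr' hrC hrb hc1 hc2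

end Pool.Agent.Helper48.OE
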